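import Mathlib
import Pool.Agent.H23.Hyperoval

set_option autoImplicit false
set_option maxSynthPendingDepth 3

namespace Pool.Agent.Results.MP_0f105f_co.Nonlinear

/-- two points are collinear if some line is incident with both -/
def Coll {P L : Type} (I : P → L → Prop) (p q : P) : Prop := ∃ l, I p l ∧ I q l

/-- thick generalized quadrangle -/
def IsGQ {P L : Type} (I : P → L → Prop) : Prop :=
  (∀ p q l m, p ≠ q → I p l → I q l → I p m → I q m → l = m) ∧
  (∀ l, ∃ p q r, p ≠ q ∧ p ≠ r ∧ q ≠ r ∧ I p l ∧ I q l ∧ I r l) ∧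
  (∀ p, ∃ l m n, l ≠ m ∧ l ≠ n ∧ m ≠ n ∧ I p l ∧ I p m ∧ I p n) ∧
  ∀ p l, ¬ I p l → ∃! q, I q l ∧ Coll I p q

/-- the abelian group `G` acts by elations about `x`, sharply transitively on the points not
collinear with `x` -/
def IsTranslationGroup (G : Type) {P L : Type} [AddCommGroup G] [AddAction G P] [AddAction G L]
    (I : P → L → Prop) (x : P) : Prop :=
  (∀ (g : G) p l, I (g +ᵥ p) (g +ᵥ l) ↔ I p l) ∧
  (∀ (g : G) l, I x l → g +ᵥ l = l) ∧
  (∀ g : G, g ≠ 0 → ∀ p, ¬ Coll I x p → g +ᵥ p ≠ p) ∧
  ∀ p q, ¬ Coll I x p → ¬ Coll I x q → ∃! g : G, g +ᵥ p = q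

/-- `α` maps the stabilisers of `M_L` and of `z_L` into themselves, for each line `L` on `x` -/
def InKernel {G P L : Type} [AddCommGroup G] [AddAction G P] [AddAction G L]
    (I : P → L → Prop) (x y : P) (α : G →+ G) : Prop :=
  ∀ (l m : L) (z : P), I x l → I y m → I z l → I z m →
    (∀ g : G, g +ᵥ m = m → α g +ᵥ m = m) ∧ ∀ g : G, g +ᵥ z = z → α g +ᵥ z = z

inductive Pt (G J R : Type) : Type
  | aff : G → Pt G J R
  | hyp : J → R → Pt G J R
  | inf : Pt G J R

inductive Ln (J R K : Type) : Type
  | aff : J → R → K → Ln J R K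
  | inf : J → Ln J R K

section build

variable {G J R K : Type} [AddCommGroup G] [AddCommGroup R] [AddCommGroup K]
  (la : J → G →+ R) (mu : J → G →+ K)

def Inc : Pt G J R → Ln J R K → Prop
  | .aff g, .aff i r k => la i g = r ∧ mu i g = k
  | .aff _, .inf _ => False
  | .hyp j s, .aff i r _ => j = i ∧ s = r
  | .hyp j _, .inf i => j = i
  | .inf, .aff _ _ _ => False
  | .inf, .inf _ => True

def vP (g : G) : Pt G J R → Pt G J R
  | .aff h => .aff (g + h)
  | .hyp j s => .hyp j (la j g + s)
  | .inf => .inf

def vL (g : G) : Ln J R K → Ln J R K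
  | .aff i r k => .aff i (la i g + r) (mu i g + k)
  | .inf i => .inf i

@[reducible] def actP : AddAction G (Pt G J R) where
  vadd := vP la
  zero_vadd p := by
    show vP la 0 p = p
    cases p <;> simp [vP]
  add_vadd g h p := by
    show vP la (g + h) p = vP la g (vP la h p)
    cases p <;> simp [vP, add_assoc]

@[reducible] def actL : AddAction G (Ln J R K) where
  vadd := vL la mu
  zero_vadd p := by
    show vL la mu 0 p = p
    cases p <;> simp [vL]
  add_vadd g h p := by
    show vL la mu (g + h) p = vL la mu g (vL la mu h p)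
    cases p <;> simp [vL, add_assoc]

lemma coll_inf (p : Pt G J R) [Nonempty J] : ¬ Coll (Inc la mu) .inf p ↔ ∃ g, p = .aff g := by
  constructor
  · intro h
    cases p with
    | aff g => exact ⟨g, rfl⟩
    | hyp j s => exact absurd ⟨.inf j, trivial, rfl⟩ h
    | inf => exact absurd ⟨.inf (Classical.arbitrary J), trivial, trivial⟩ h
  · rintro ⟨g, rfl⟩ ⟨l, h1, h2⟩
    cases l
    · exact h1
    · exact h2

lemma trans_group [Nonempty J] :
    @IsTranslationGroup G _ _ _ (actP la) (actL la mu) (Inc la mu) .inf := by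
  refine ⟨?_, ?_, ?_, ?_⟩
  · intro g p l
    show Inc la mu (vP la g p) (vL la mu g l) ↔ _
    cases p <;> cases l <;> simp [Inc, vP, vL]
    rintro rfl
    simp
  · intro g l h
    show vL la mu g l = l
    cases l
    · exact h.elim
    · rfl
  · intro g hg p hp
    obtain ⟨h, rfl⟩ := (coll_inf la mu p).1 hp
    show vP la g _ ≠ _
    simpa [vP] using hg
  · intro p q hp hq
    obtain ⟨g, rfl⟩ := (coll_inf la mu p).1 hp
    obtain ⟨h, rfl⟩ := (coll_inf la mu q).1 hq
    refine ⟨h - g, ?_, ?_⟩
    · show vP la _ _ = _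
      simp [vP]
    · intro u hu
      have : vP la u (.aff g) = .aff h := hu
      simp only [vP, Pt.aff.injEq] at this
      rw [← this]; simp

lemma isGQ (a b c : J) (hab : a ≠ b) (hac : a ≠ c) (hbc : b ≠ c) (r0 : R) (hr : r0 ≠ 0)
    (k0 : K) (hk : k0 ≠ 0)
    (H1 : ∀ i j, i ≠ j → ∀ r k r', ∃ g, la i g = r ∧ mu i g = k ∧ la j g = r')
    (H1u : ∀ i j, i ≠ j → ∀ g, la i g = 0 → mu i g = 0 → la j g = 0 → g = 0)
    (H2 : ∀ i r k, r ≠ 0 → ∃! h, la i h = r ∧ mu i h = k ∧ ∃ j, la j h = 0 ∧ mu j h = 0) :
    IsGQ (Inc la mu) := by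
  have hoth : ∀ i : J, ∃ j, i ≠ j := by
    intro i
    by_cases h : i = a
    · exact ⟨b, h ▸ hab⟩
    · exact ⟨a, h⟩
  have hu : ∀ i j, i ≠ j → ∀ g h, la i g = la i h → mu i g = mu i h → la j g = la j h → g = h := by
    intro i j hij g h h1 h2 h3
    exact sub_eq_zero.1 (H1u i j hij (g - h) (by simp [h1]) (by simp [h2]) (by simp [h3]))
  refine ⟨?_, ?_, ?_, ?_⟩
  · intro p q l m hpq h1 h2 h3 h4
    cases p <;> cases q <;> cases l <;> cases m <;> simp only [Inc] at h1 h2 h3 h4
    · rename_i g h i r k j r' k'
      by_cases hij : i = j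
      · subst hij
        rw [← h1.1, ← h1.2, ← h3.1, ← h3.2]
      · exact absurd (congrArg _ (hu i j hij g h (h1.1.trans h2.1.symm) (h1.2.trans h2.2.symm)
          (h3.1.trans h4.1.symm))) hpq
    · obtain ⟨rfl, rfl⟩ := h2
      obtain ⟨rfl, rfl⟩ := h4
      rw [← h1.2, ← h3.2]
    · obtain ⟨rfl, rfl⟩ := h1
      obtain ⟨rfl, rfl⟩ := h3
      rw [← h2.2, ← h4.2]
    · obtain ⟨rfl, rfl⟩ := h1
      obtain ⟨rfl, rfl⟩ := h2
      exact absurd rfl hpq
    · obtain ⟨rfl, rfl⟩ := h1
      obtain ⟨rfl, rfl⟩ := h2
      exact absurd rfl hpq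
    · obtain ⟨rfl, rfl⟩ := h3
      obtain ⟨rfl, rfl⟩ := h4
      exact absurd rfl hpq
    · rw [← h1, ← h3]
    · rw [← h1, ← h3]
    · rw [← h2, ← h4]
    · exact absurd rfl hpq
  · intro l
    cases l with
    | aff i r k =>
      obtain ⟨j, hj⟩ := hoth i
      obtain ⟨g, h1, h2, h3⟩ := H1 i j hj r k 0
      obtain ⟨h, h4, h5, h6⟩ := H1 i j hj r k r0
      refine ⟨.aff g, .aff h, .hyp i r, ?_, by simp, by simp, ⟨h1, h2⟩, ⟨h4, h5⟩, ⟨rfl, rfl⟩⟩
      intro e
      injection e with e
      exact hr (by rw [← h6, ← e, h3])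
    | inf i =>
      exact ⟨.hyp i 0, .hyp i r0, .inf, by simpa using hr.symm, by simp, by simp, rfl, rfl, trivial⟩
  · intro p
    cases p with
    | aff g =>
      exact ⟨.aff a (la a g) (mu a g), .aff b (la b g) (mu b g), .aff c (la c g) (mu c g),
        by simp [hab], by simp [hac], by simp [hbc], ⟨rfl, rfl⟩, ⟨rfl, rfl⟩, ⟨rfl, rfl⟩⟩
    | hyp j s =>
      exact ⟨.aff j s 0, .aff j s k0, .inf j, by simpa using hk.symm, by simp, by simp,
        ⟨rfl, rfl⟩, ⟨rfl, rfl⟩, rfl⟩
    | inf =>
      exact ⟨.inf a, .inf b, .inf c, by simp [hab], by simp [hac], by simp [hbc],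
        trivial, trivial, trivial⟩
  · intro p l hpl
    cases p with
    | aff g =>
      cases l with
      | aff i r k =>
        by_cases h : la i g = r
        · have hk' : mu i g ≠ k := fun h' => hpl ⟨h, h'⟩
          refine ⟨.hyp i r, ⟨⟨rfl, rfl⟩, .aff i r (mu i g), ⟨h, rfl⟩, ⟨rfl, rfl⟩⟩, ?_⟩
          rintro q ⟨h1, m, h2, h3⟩
          cases q <;> cases m <;> simp only [Inc] at h1 h2 h3
          · rename_i g' j r' k'
            exfalso
            by_cases hij : j = i
            · subst hij
              exact hk' (by rw [h2.2, ← h3.2, h1.2])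
            · have := hu j i hij g g' (h2.1.trans h3.1.symm) (h2.2.trans h3.2.symm)
                (h.trans h1.1.symm)
              exact hk' (this ▸ h1.2)
          · rw [h1.1, h1.2]
        · obtain ⟨u, ⟨u1, u2, j, u3, u4⟩, hu'⟩ := H2 i (r - la i g) (k - mu i g)
            (sub_ne_zero.2 (Ne.symm h))
          refine ⟨.aff (u + g), ⟨⟨by simp [u1], by simp [u2]⟩, .aff j (la j g) (mu j g), ⟨rfl, rfl⟩,
            ⟨by simp [u3], by simp [u4]⟩⟩, ?_⟩
          rintro q ⟨h1, m, h2, h3⟩
          cases q <;> cases m <;> simp only [Inc] at h1 h2 h3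
          · rename_i g' j' r' k'
            have := hu' (g' - g) ⟨by simp [h1.1], by simp [h1.2], j', by simp [h2.1, h3.1],
              by simp [h2.2, h3.2]⟩
            rw [← this]; simp
          · obtain ⟨rfl, rfl⟩ := h1
            obtain ⟨rfl, rfl⟩ := h3
            exact absurd h2.1 h
      | inf i =>
        refine ⟨.hyp i (la i g), ⟨rfl, .aff i (la i g) (mu i g), ⟨rfl, rfl⟩, ⟨rfl, rfl⟩⟩, ?_⟩
        rintro q ⟨h1, m, h2, h3⟩
        cases q <;> cases m <;> simp only [Inc] at h1 h2 h3
        obtain ⟨rfl, rfl⟩ := h3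
        rw [← h1, h2.1]
    | hyp j s =>
      cases l with
      | aff i r k =>
        by_cases hij : j = i
        · subst hij
          have hs : s ≠ r := fun h => hpl ⟨rfl, h⟩
          refine ⟨.hyp j r, ⟨⟨rfl, rfl⟩, .inf j, rfl, rfl⟩, ?_⟩
          rintro q ⟨h1, m, h2, h3⟩
          cases q <;> cases m <;> simp only [Inc] at h1 h2 h3
          · obtain ⟨rfl, rfl⟩ := h2
            exact absurd (h3.1.symm.trans h1.1) hs
          · rw [h1.1, h1.2]
          · rw [h1.1, h1.2]
        · obtain ⟨g, g1, g2, g3⟩ := H1 i j (Ne.symm hij) r k s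
          refine ⟨.aff g, ⟨⟨g1, g2⟩, .aff j s (mu j g), ⟨rfl, rfl⟩, ⟨g3, rfl⟩⟩, ?_⟩
          rintro q ⟨h1, m, h2, h3⟩
          cases q <;> cases m <;> simp only [Inc] at h1 h2 h3
          · obtain ⟨rfl, rfl⟩ := h2
            rw [hu i j (Ne.symm hij) _ g (h1.1.trans g1.symm) (h1.2.trans g2.symm)
              (h3.1.trans g3.symm)]
          · exact absurd (h2.1.trans (h3.1.symm.trans h1.1)) hij
          · exact absurd (h2.trans (h3.symm.trans h1.1)) hij
      | inf i =>
        have hij : j ≠ i := hpl
        refine ⟨.inf, ⟨trivial, .inf j, rfl, trivial⟩, ?_⟩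
        rintro q ⟨h1, m, h2, h3⟩
        cases q <;> cases m <;> simp only [Inc] at h1 h2 h3
        · exact absurd (h2.1.trans (h3.1.symm.trans h1)) hij
        · exact absurd (h2.trans (h3.symm.trans h1)) hij
        · rfl
    | inf =>
      cases l with
      | aff i r k =>
        refine ⟨.hyp i r, ⟨⟨rfl, rfl⟩, .inf i, trivial, rfl⟩, ?_⟩
        rintro q ⟨h1, m, h2, h3⟩
        cases q <;> cases m <;> simp only [Inc] at h1 h2 h3
        rw [h1.1, h1.2]
      | inf i => exact absurd trivial hpl

lemma inKernel (α : G →+ G) (h1 : ∀ i g, la i g = 0 → la i (α g) = 0)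
    (h2 : ∀ i g, mu i g = 0 → mu i (α g) = 0) :
    @InKernel G _ _ _ (actP la) (actL la mu) (Inc la mu) .inf (.aff 0) α := by
  intro l m z hl hm hz1 hz2
  cases l <;> cases m <;> cases z <;> simp only [Inc] at hl hm hz1 hz2
  rename_i i j r k j' s
  constructor
  · intro g hg
    have hg' : vL la mu g (.aff j r k) = .aff j r k := hg
    show vL la mu _ _ = _
    simp only [vL, Ln.aff.injEq, true_and, add_eq_right] at hg' ⊢
    exact ⟨h1 j g hg'.1, h2 j g hg'.2⟩
  · intro g hg
    have hg' : vP la g (.hyp j' s) = .hyp j' s := hg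
    show vP la _ _ = _
    simp only [vP, Pt.hyp.injEq, true_and, add_eq_right] at hg' ⊢
    exact h1 j' g hg'

end build

open Polynomial

abbrev RR := Polynomial ℚ
abbrev KK := RatFunc ℚ
abbrev GG := RR × KK × RR

noncomputable def lam (θ : KK → ℚ) : Option KK → GG →ₗ[RR] RR
  | none => LinearMap.fst _ _ _
  | some m => (LinearMap.snd _ _ _).comp (LinearMap.snd _ _ _) - C (θ m) • LinearMap.fst _ _ _

noncomputable def muu : Option KK → GG →ₗ[RR] KK
  | none => (LinearMap.fst _ _ _).comp (LinearMap.snd _ _ _)
  | some m => (LinearMap.fst _ _ _).comp (LinearMap.snd _ _ _)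
      - (LinearMap.toSpanSingleton RR KK m).comp (LinearMap.fst _ _ _)

lemma lam_none (θ : KK → ℚ) (g : GG) : lam θ none g = g.1 := rfl
lemma lam_some (θ : KK → ℚ) (m : KK) (g : GG) : lam θ (some m) g = g.2.2 - C (θ m) * g.1 := rfl
lemma muu_none (g : GG) : muu none g = g.2.1 := rfl
lemma muu_some (m : KK) (g : GG) : muu (some m) g = g.2.1 - algebraMap RR KK g.1 * m := by
  rw [← Algebra.smul_def]; rfl

instance : Countable KK := by
  have : Countable RR := by
    refine Function.Injective.countable (f := fun p : RR => p.toFinsupp.coeff) ?_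
    intro p q h
    exact Polynomial.toFinsupp_injective (AddMonoidAlgebra.coeff_injective h)
  refine Function.Surjective.countable
    (f := fun p : RR × RR => algebraMap RR KK p.1 / algebraMap RR KK p.2) ?_
  intro x
  exact ⟨(x.num, x.denom), RatFunc.num_div_denom x⟩

theorem result : ∃ (P L G : Type) (_ : AddCommGroup G) (_ : AddAction G P) (_ : AddAction G L)
    (I : P → L → Prop) (x y : P), IsGQ I ∧ IsTranslationGroup G I x ∧ ¬ Coll I x y ∧
      ∃ α : G →+ G, InKernel I x y α ∧ α ≠ 0 ∧ ¬ Function.Surjective α := by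
  obtain ⟨θ, hinj, hθ⟩ := Pool.Agent.H23.Hyperoval.exists_theta (K := KK)
  have hC : ∀ q : ℚ, algebraMap RR KK (C q) = (q : KK) := fun q =>
    eq_ratCast ((algebraMap RR KK).comp C) q
  have hι : Function.Injective (algebraMap RR KK) := IsFractionRing.injective RR KK
  have hd : ∀ m c : KK, m ≠ c → C (θ m - θ c) * C (θ m - θ c)⁻¹ = (1 : RR) := by
    intro m c h
    rw [← C_mul, mul_inv_cancel₀ (sub_ne_zero.2 (fun h' => h (hinj h'))), C_1]
  refine ⟨Pt GG (Option KK) RR, Ln (Option KK) RR KK, GG, inferInstance,
    actP (fun i => (lam θ i).toAddMonoidHom),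
    actL (fun i => (lam θ i).toAddMonoidHom) (fun i => (muu i).toAddMonoidHom),
    Inc (fun i => (lam θ i).toAddMonoidHom) (fun i => (muu i).toAddMonoidHom), .inf, .aff 0,
    isGQ _ _ none (some 0) (some 1) (by simp) (by simp) (by simp) 1 one_ne_zero 1 one_ne_zero
      ?_ ?_ ?_, trans_group _ _, (coll_inf _ _ _).2 ⟨0, rfl⟩,
    DistribSMul.toAddMonoidHom GG (X : RR), inKernel _ _ _ ?_ ?_, ?_, ?_⟩
  · intro i j hij r k r'
    simp only [LinearMap.toAddMonoidHom_coe]
    cases i with
    | none =>
      cases j with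
      | none => exact absurd rfl hij
      | some m => exact ⟨(r, k, r' + C (θ m) * r), rfl, rfl, by simp [lam_some]⟩
    | some c =>
      cases j with
      | none =>
        exact ⟨(r', k + algebraMap RR KK r' * c, r + C (θ c) * r'), by simp [lam_some],
          by simp [muu_some], rfl⟩
      | some m =>
        have h := hd c m (fun h => hij (congrArg _ h))
        refine ⟨(C (θ c - θ m)⁻¹ * (r' - r), k + algebraMap RR KK (C (θ c - θ m)⁻¹ * (r' - r)) * c,
          r + C (θ c) * (C (θ c - θ m)⁻¹ * (r' - r))), by simp [lam_some], by simp [muu_some], ?_⟩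
        rw [lam_some]
        rw [C_sub] at h
        simp only
        linear_combination (r' - r) * h
  · rintro i j hij ⟨x, y, z⟩ h1 h2 h3
    simp only [LinearMap.toAddMonoidHom_coe] at h1 h2 h3
    cases i with
    | none =>
      cases j with
      | none => exact absurd rfl hij
      | some m =>
        simp only [lam_none, muu_none, lam_some] at h1 h2 h3
        subst h1; subst h2
        simpa using h3
    | some c =>
      have hx : x = 0 := by
        cases j with
        | none => exact h3
        | some m =>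
          have h := hd c m (fun h => hij (congrArg _ h))
          simp only [lam_some] at h1 h3
          rw [C_sub] at h
          linear_combination C (θ c - θ m)⁻¹ * (h3 - h1) - x * h
      subst hx
      simp only [lam_some, muu_some] at h1 h2
      simp only [mul_zero, sub_zero, map_zero, zero_mul] at h1 h2
      rw [h1, h2]; rfl
  · intro i r k hr
    simp only [LinearMap.toAddMonoidHom_coe]
    have hr' : algebraMap RR KK r ≠ 0 := fun h => hr (hι (by simpa using h))
    cases i with
    | none =>
      refine ⟨(r, k, C (θ (k / algebraMap RR KK r)) * r), ⟨rfl, rfl, some (k / algebraMap RR KK r),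
        by simp [lam_some], by simp [muu_some]; field_simp; ring⟩, ?_⟩
      rintro ⟨x, y, z⟩ ⟨h1, h2, j, h3, h4⟩
      simp only [lam_none, muu_none] at h1 h2
      subst h1; subst h2
      cases j with
      | none => exact absurd h3 hr
      | some m =>
        simp only [lam_some, muu_some] at h3 h4
        have : y / algebraMap RR KK x = m := by
          field_simp
          linear_combination h4
        rw [this, sub_eq_zero.1 h3]
    | some c =>
      by_cases hk : k = 0
      · subst hk
        refine ⟨(0, 0, r), ⟨by simp [lam_some], by simp [muu_some], none, rfl, rfl⟩, ?_⟩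
        rintro ⟨x, y, z⟩ ⟨h1, h2, j, h3, h4⟩
        simp only [lam_some, muu_some] at h1 h2
        cases j with
        | none =>
          simp only [lam_none, muu_none] at h3 h4
          subst h3; subst h4
          simpa using h1
        | some m =>
          simp only [lam_some, muu_some] at h3 h4
          exfalso
          have h5 : algebraMap RR KK x * (m - c) = 0 := by linear_combination h2 - h4
          rcases mul_eq_zero.1 h5 with h | h
          · have : x = 0 := hι (by simpa using h)
            subst this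
            apply hr
            linear_combination h3 - h1
          · have : m = c := sub_eq_zero.1 h
            subst this
            apply hr
            linear_combination h3 - h1
      · obtain ⟨m, ⟨hm1, hm2⟩, hm3⟩ := hθ c (algebraMap RR KK r / k) (div_ne_zero hr' hk)
        have h := hd m c hm1
        have hq : ((θ m : KK) - θ c) ≠ 0 := by
          rw [hm2]; exact mul_ne_zero (div_ne_zero hr' hk) (sub_ne_zero.2 hm1)
        refine ⟨(C (θ m - θ c)⁻¹ * r, algebraMap RR KK (C (θ m - θ c)⁻¹ * r) * m,
          C (θ m) * (C (θ m - θ c)⁻¹ * r)), ⟨?_, ?_, some m, by simp [lam_some],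
            by simp [muu_some]⟩, ?_⟩
        · rw [lam_some]
          rw [C_sub] at h
          simp only
          linear_combination r * h
        · rw [muu_some]
          simp only [map_mul, hC]
          push_cast
          field_simp
          field_simp at hm2
          linear_combination -hm2
        · rintro ⟨x, y, z⟩ ⟨h1, h2, j, h3, h4⟩
          simp only [lam_some, muu_some] at h1 h2
          cases j with
          | none =>
            simp only [lam_none, muu_none] at h3 h4
            subst h3; subst h4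
            exact absurd (by simpa using h2.symm) hk
          | some m' =>
            simp only [lam_some, muu_some] at h3 h4
            have e1 : r = (C (θ m') - C (θ c)) * x := by linear_combination h3 - h1
            have e2 : k = algebraMap RR KK x * (m' - c) := by linear_combination h4 - h2
            have e3 : m' ≠ c := by
              rintro rfl
              exact hk (by simpa using e2)
            have e4 : m' = m := by
              apply hm3 m' ⟨e3, ?_⟩
              have e5 : algebraMap RR KK r = ((θ m' : KK) - θ c) * algebraMap RR KK x := by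
                rw [e1, map_mul, map_sub, hC, hC]
              field_simp
              rw [e5, e2]; ring
            subst e4
            have e6 : C (θ m' - θ c)⁻¹ * r = x := by
              rw [C_sub] at h
              linear_combination C (θ m' - θ c)⁻¹ * e1 + x * h
            rw [e6, sub_eq_zero.1 h3, sub_eq_zero.1 h4]
  · intro i g h
    have h' : lam θ i g = 0 := h
    show lam θ i ((X : RR) • g) = 0
    rw [map_smul, h', smul_zero]
  · intro i g h
    have h' : muu i g = 0 := h
    show muu i ((X : RR) • g) = 0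
    rw [map_smul, h', smul_zero]
  · intro h
    have : ((X : RR) • ((1, 0, 0) : GG)).1 = 0 := congrArg Prod.fst (DFunLike.congr_fun h (1, 0, 0))
    simp at this
  · intro h
    obtain ⟨g, hg⟩ := h (1, 0, 0)
    have : (X : RR) * g.1 = 1 := congrArg Prod.fst hg
    have := congrArg (Polynomial.eval 0) this
    simp at this

end Pool.Agent.Results.MP_0f105f_co.Nonlinear
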